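import Pool.Agent.H25.LF.Targets
import Pool.Agent.H65.PF.RT

/-!
Board lpf_modules, row NNB: the number of the primes `p` with `l ^ a ∣ p ^ 2 - 2`.
-/

set_option autoImplicit false

open Finset Real ArithmeticFunction

namespace Pool.Agent.H90.LF

open Pool.Agent.H25.LF
open Pool.Agent.H30.PF (S8)

theorem dv_mod {d p : ℕ} (h : Dv d p) : (p % d) ^ 2 % d = 2 % d := by
  have h1 : 2 ≡ p ^ 2 [MOD d] := by
    rw [Nat.modEq_iff_dvd]
    unfold Dv at h
    push_cast
    exact h
  rw [← Nat.pow_mod]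
  exact h1.symm

theorem pf_NNB (hBTS : T_BTS) : T_NNB := by
  intro δ hδ
  obtain ⟨Y, hY, hB⟩ := hBTS δ hδ
  refine ⟨Y, hY, fun x l a hl hl2 ha hx => ?_⟩
  have hodd : Odd (l ^ a) := (hl.odd_of_ne_two hl2).pow
  obtain ⟨hcard, hres⟩ := Pool.Agent.H65.PF.rt (l ^ a) hodd
  have hd1 : 1 ≤ l ^ a := Nat.one_le_pow _ _ hl.pos
  have hdR : (0 : ℝ) < (l : ℝ) ^ a := by
    have := hl.pos
    positivity
  have hx' : Y * ((l ^ a : ℕ) : ℝ) ≤ x := by
    push_cast
    exact hx
  have hx0 : 0 < x := lt_of_lt_of_le (by positivity) hx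
  have hlog : 0 < Real.log (x / (l : ℝ) ^ a) := by
    apply Real.log_pos
    rw [lt_div_iff₀ hdR]
    nlinarith
  have hphi : (0 : ℝ) < ((l ^ a).totient : ℝ) := by exact_mod_cast Nat.totient_pos.2 hd1
  set B : ℝ := (2 + δ) * x / ((l ^ a).totient * Real.log (x / l ^ a)) with hBdef
  have hB0 : 0 ≤ B := by positivity
  have hpf : (l ^ a).primeFactors = {l} := Nat.primeFactors_prime_pow (by omega) hl
  by_cases hS : S8 l
  · rw [if_pos hS]
    set R : Finset ℕ := (range (l ^ a)).filter (fun r => r ^ 2 % (l ^ a) = 2 % (l ^ a)) with hR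
    have hR2 : (R.card : ℝ) ≤ 2 := by
      rw [hpf, card_singleton, pow_one] at hcard
      exact_mod_cast hcard
    have hsub : (PR x).filter (Dv (l ^ a)) ⊆
        R.biUnion (fun r => (PR x).filter (fun p => p % (l ^ a) = r % (l ^ a))) := by
      intro p hp
      rw [mem_filter] at hp
      rw [mem_biUnion]
      refine ⟨p % (l ^ a), ?_, ?_⟩
      · rw [hR, mem_filter, mem_range]
        exact ⟨Nat.mod_lt _ hd1, dv_mod hp.2⟩
      · rw [mem_filter]
        exact ⟨hp.1, (Nat.mod_mod _ _).symm⟩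
    have h1 : NN x (l ^ a) ≤ ∑ r ∈ R, B := by
      unfold NN
      calc (((PR x).filter (Dv (l ^ a))).card : ℝ) ≤
            ((∑ r ∈ R, ((PR x).filter (fun p => p % (l ^ a) = r % (l ^ a))).card : ℕ) : ℝ) := by
            exact_mod_cast (card_le_card hsub).trans card_biUnion_le
        _ = ∑ r ∈ R, (((PR x).filter (fun p => p % (l ^ a) = r % (l ^ a))).card : ℝ) := by
            push_cast
            rfl
        _ ≤ ∑ r ∈ R, B := by
            apply sum_le_sum
            intro r _
            have h2 := hB x (l ^ a) r hd1 hx'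
            rw [hBdef]
            push_cast at h2 ⊢
            exact h2
    rw [sum_const, nsmul_eq_mul] at h1
    calc NN x (l ^ a) ≤ R.card * B := h1
      _ ≤ 2 * B := by gcongr
  · rw [if_neg hS, zero_mul]
    unfold NN
    have h0 : (PR x).filter (Dv (l ^ a)) = ∅ := by
      rw [filter_eq_empty_iff]
      intro p _ hp
      have h1 := (hres _ (dv_mod hp)).2 l (by rw [hpf]; exact mem_singleton_self l)
      exact hS h1
    rw [h0]
    simp

end Pool.Agent.H90.LF
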